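import Pool.Agent.H3NY.S.Field

namespace Pool.Agent.H356R3.NS
end Pool.Agent.H356R3.NS
namespace Pool.Agent.H356R3.NS.H3
end Pool.Agent.H356R3.NS.H3
namespace Pool.Agent.H356R3.NS.X
end Pool.Agent.H356R3.NS.X
namespace Pool.Agent.H3NS
end Pool.Agent.H3NS
namespace H459R3.NS
end H459R3.NS

set_option autoImplicit false
set_option maxHeartbeats 4000000
set_option synthInstance.maxHeartbeats 400000

open MeasureTheory Set Filter Topology
open scoped ENNReal NNReal ContDiff

namespace Pool.Agent.H3NS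

open Pool.Agent.H356R3.NS

/-! ### Smoothness with cut-offs -/

lemma Sm.congr {T : Set ℝ} {F G : ℝ → R3 → ℝ} (hF : Sm T F) (h : ∀ t ∈ T, ∀ x, G t x = F t x) : Sm T G :=
  ContDiffOn.congr hF fun z hz => h z.1 hz.1 z.2

end Pool.Agent.H3NS
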