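import Pool.Agent.H3NY.R.Four2
import Pool.Agent.H3NY.R.Reg3

namespace Pool.Agent.H356R3.NS
end Pool.Agent.H356R3.NS
namespace Pool.Agent.H356R3.NS.H3
end Pool.Agent.H356R3.NS.H3
namespace Pool.Agent.H356R3.NS.X
end Pool.Agent.H356R3.NS.X
namespace Pool.Agent.H3NS
end Pool.Agent.H3NS
namespace H459R3.NS
end H459R3.NS

set_option autoImplicit false
set_option maxHeartbeats 4000000
set_option synthInstance.maxHeartbeats 400000

open MeasureTheory Set Filter Topology
open scoped ENNReal NNReal ContDiff

namespace Pool.Agent.H3NS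

open Pool.Agent.H356R3.NS

lemma ex_sub (k : K) (x y : E3) : ex k (x - y) = ex k (-y) * ex k x := by
  unfold ex
  rw [← Complex.exp_add]
  congr 1
  rw [← mul_add, ← Finset.sum_add_distrib]
  congr 1
  refine Finset.sum_congr rfl fun j _ => ?_
  simp only [Pi.sub_apply, Pi.neg_apply]
  push_cast
  ring

lemma fc_tsum {c : K → C3} (hs : SN c) (hsym : Sym c) :
    fc (fun x i => (∑' k, c k i * ex k x).re) = c := by
  have hs' : ∀ i, Summable fun k => ‖c k i‖ := fun i =>
    hs.of_nonneg_of_le (fun _ => norm_nonneg _) fun k => norm_le_pi_norm _ i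
  have hsx : ∀ i x, Summable fun k => c k i * ex k x := by
    intro i x
    refine Summable.of_norm_bounded (hs' i) fun k => ?_
    rw [norm_mul, norm_ex, mul_one]
  have hre : ∀ i x, (((∑' k, c k i * ex k x).re : ℝ) : ℂ) = ∑' k, c k i * ex k x := by
    intro i x
    have h1 : (SF (fun k _ => c k i) ((0 : ℝ), x)).im = 0 := SF_real (fun k _ => hsym k i) _
    have h2 : SF (fun k _ => c k i) ((0 : ℝ), x) = ∑' k, c k i * ex k x := rfl
    rw [h2] at h1
    exact Complex.ext (by simp) (by simp [h1])
  funext k i
  rw [fc_eq]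
  simp only [hre]
  have h3 : IsFiniteMeasure (volume.restrict Q3 : Measure E3) :=
    ⟨by rw [Measure.restrict_apply_univ, Q3_vol]; exact ENNReal.one_lt_top⟩
  have hnorm : ∀ l, ∫ x in Q3, ‖c l i * ex (l - k) x‖ = ‖c l i‖ := by
    intro l
    simp only [norm_mul, norm_ex, mul_one]
    rw [integral_const]
    have : (volume.restrict Q3 : Measure E3).real univ = 1 := by
      rw [Measure.real, Measure.restrict_apply_univ, Q3_vol]; rfl
    rw [this, one_smul]
  have e1 : ∀ x, (∑' l, c l i * ex l x) * ex (-k) x = ∑' l, c l i * ex (l - k) x := by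
    intro x
    rw [← tsum_mul_right]
    refine tsum_congr fun l => ?_
    rw [mul_assoc, ← ex_add, ← sub_eq_add_neg]
  simp only [e1]
  have hint : ∀ l, Integrable (fun x => c l i * ex (l - k) x) (volume.restrict Q3) := by
    intro l
    have : Continuous fun x => c l i * ex (l - k) x := continuous_const.mul (ex_cont _)
    exact this.continuousOn.integrableOn_compact isCompact_Icc
  rw [← integral_tsum_of_summable_integral_norm hint (by simpa only [hnorm] using hs' i)]
  simp only [integral_const_mul, ex_int, sub_eq_zero, mul_ite, mul_one, mul_zero]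
  rw [tsum_ite_eq]

end Pool.Agent.H3NS
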