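import Pool.Agent.H3NY.R.Basic2
import Pool.Agent.H3NY.R.Final

namespace Pool.Agent.H356R3.NS
end Pool.Agent.H356R3.NS
namespace Pool.Agent.H356R3.NS.H3
end Pool.Agent.H356R3.NS.H3
namespace Pool.Agent.H356R3.NS.X
end Pool.Agent.H356R3.NS.X
namespace Pool.Agent.H3NS
end Pool.Agent.H3NS
namespace H459R3.NS
end H459R3.NS

set_option autoImplicit false
set_option maxHeartbeats 4000000
set_option synthInstance.maxHeartbeats 400000

open MeasureTheory Set Filter Topology
open scoped ENNReal NNReal ContDiff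

namespace Pool.Agent.H3NS

open Pool.Agent.H356R3.NS Pool.Agent.H356R3.NS.H3

lemma critNorm_mono {r : ℝ} (hr : 0 ≤ r) {a b : K → C3} (h : ∀ k, k ≠ 0 → ‖a k‖ₑ ≤ ‖b k‖ₑ) :
    critNorm r a ≤ critNorm r b := by
  unfold critNorm shellSum
  refine ENNReal.rpow_le_rpow (ENNReal.tsum_le_tsum fun j => ENNReal.rpow_le_rpow
    (ENNReal.div_le_div_right (ENNReal.tsum_le_tsum fun k => ?_) _) hr) (by positivity)
  split_ifs with hk
  · refine h k ?_
    rintro rfl
    have h1 := hk.1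
    simp only [Pi.zero_apply, ne_eq, OfNat.ofNat_ne_zero, not_false_eq_true, zero_pow,
      Finset.sum_const_zero] at h1
    have : (0 : ℤ) < 4 ^ j := by positivity
    linarith
  · exact le_rfl

lemma critNorm_le_NW {r : ℝ} (hr : 1 ≤ r) (a : K → C3) : critNorm r a ≤ 2 * NW (Wm 0) a := by
  rw [critNorm_eq]
  calc crit r a ^ (1 / r) ≤ ((2 * ∑' k, ENNReal.ofReal (1 / nk k) * ‖a k‖ₑ) ^ r) ^ (1 / r) :=
        ENNReal.rpow_le_rpow (crit_le hr _) (by positivity)
    _ = 2 * ∑' k, ENNReal.ofReal (1 / nk k) * ‖a k‖ₑ := by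
        rw [← ENNReal.rpow_mul, mul_one_div_cancel (by linarith), ENNReal.rpow_one]
    _ = 2 * NW (Wm 0) a := by
        unfold NW Wm om
        simp

end Pool.Agent.H3NS
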