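import Pool.Agent.H3NY.R.Final
import Pool.Agent.H3NY.R.Four2

namespace Pool.Agent.H356R3.NS
end Pool.Agent.H356R3.NS
namespace Pool.Agent.H356R3.NS.H3
end Pool.Agent.H356R3.NS.H3
namespace Pool.Agent.H356R3.NS.X
end Pool.Agent.H356R3.NS.X
namespace Pool.Agent.H3NS
end Pool.Agent.H3NS
namespace H459R3.NS
end H459R3.NS

set_option autoImplicit false

open MeasureTheory Set Filter Topology
open scoped ENNReal NNReal ContDiff ComplexConjugate

namespace Pool.Agent.H3NS

open Pool.Agent.H356R3.NS

/-- the sum of the `|k|^(-4)` -/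
noncomputable def S4 : ℝ := ∑' k : K, (1 / nk k) ^ 4

lemma S4_nonneg : 0 ≤ S4 := tsum_nonneg fun k => by
  have := nk_nonneg k
  positivity

end Pool.Agent.H3NS

namespace Pool.Agent.H3NS

open Pool.Agent.H356R3.NS

lemma fc_int {g : R3 → R3} (hg : Continuous g) (k : K) (i : Fin 3) :
    Integrable (fun x => (g x i : ℂ) * ex (-k) x) (volume.restrict Q3) := by
  have : Continuous fun x => (g x i : ℂ) * ex (-k) x :=
    (Complex.continuous_ofReal.comp ((continuous_apply i).comp hg)).mul (ex_cont _)
  exact this.continuousOn.integrableOn_compact isCompact_Icc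

lemma fc_add {g h : R3 → R3} (hg : Continuous g) (hh : Continuous h) (k : K) :
    fc (fun x => g x + h x) k = fc g k + fc h k := by
  funext i
  rw [Pi.add_apply, fc_eq, fc_eq, fc_eq, ← integral_add (fc_int hg k i) (fc_int hh k i)]
  refine integral_congr_ae (Filter.Eventually.of_forall fun x => ?_)
  simp only [Pi.add_apply]
  push_cast
  ring

lemma fc_smul {g : R3 → R3} (c : ℝ) (k : K) :
    fc (fun x => c • g x) k = (c : ℂ) • fc g k := by
  funext i
  rw [Pi.smul_apply, fc_eq, fc_eq, smul_eq_mul, ← integral_const_mul]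
  refine integral_congr_ae (Filter.Eventually.of_forall fun x => ?_)
  simp only [Pi.smul_apply, smul_eq_mul]
  push_cast
  ring

lemma fc_sub {g h : R3 → R3} (hg : Continuous g) (hh : Continuous h) (k : K) :
    fc (fun x => g x - h x) k = fc g k - fc h k := by
  have h1 := fc_add hg (h := fun x => (-1 : ℝ) • h x) (hh.const_smul (-1 : ℝ)) k
  have h2 := fc_smul (g := h) (-1) k
  have e : (fun x => g x - h x) = fun x => g x + (-1 : ℝ) • h x := by
    funext x; rw [neg_one_smul, sub_eq_add_neg]
  rw [e, h1, h2]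
  simp [sub_eq_add_neg]

lemma shellSum_add_le (a b : K → C3) (j : ℕ) :
    shellSum (fun k => a k + b k) j ≤ shellSum a j + shellSum b j := by
  rw [shellSum_eq, shellSum_eq, shellSum_eq, ← shell_add]
  exact shell_mono j fun k _ _ => enorm_add_le _ _

lemma critNorm_add {r : ℝ} (hr : 1 ≤ r) (a b : K → C3) :
    critNorm r (fun k => a k + b k) ≤ critNorm r a + critNorm r b := by
  unfold critNorm
  have h1 : ∀ j, (shellSum (fun k => a k + b k) j / 2 ^ j) ^ r ≤
      (((fun j => shellSum a j / 2 ^ j) + (fun j => shellSum b j / 2 ^ j)) j) ^ r := by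
    intro j
    refine ENNReal.rpow_le_rpow ?_ (by linarith)
    rw [Pi.add_apply, ← ENNReal.add_div]
    exact ENNReal.div_le_div_right (shellSum_add_le a b j) _
  refine (ENNReal.rpow_le_rpow (ENNReal.tsum_le_tsum h1) (by positivity)).trans ?_
  have h2 := ENNReal.lintegral_Lp_add_le (μ := (Measure.count : Measure ℕ)) (p := r)
    (f := fun j => shellSum a j / 2 ^ j) (g := fun j => shellSum b j / 2 ^ j)
    (measurable_of_countable _).aemeasurable (measurable_of_countable _).aemeasurable hr
  simpa only [lintegral_count] using h2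

lemma shellSum_smul (c : ℝ) (a : K → C3) (j : ℕ) :
    shellSum (fun k => (c : ℂ) • a k) j = ENNReal.ofReal |c| * shellSum a j := by
  unfold shellSum
  rw [← ENNReal.tsum_mul_left]
  refine tsum_congr fun k => ?_
  have e : ‖(c : ℂ) • a k‖ₑ = ENNReal.ofReal |c| * ‖a k‖ₑ := by
    rw [enorm_smul, ← ofReal_norm (c : ℂ), Complex.norm_real, Real.norm_eq_abs]
  rw [e]
  split_ifs <;> simp

lemma critNorm_smul {r : ℝ} (hr : 1 ≤ r) (c : ℝ) (a : K → C3) :
    critNorm r (fun k => (c : ℂ) • a k) = ENNReal.ofReal |c| * critNorm r a := by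
  unfold critNorm
  have e : ∀ j, (shellSum (fun k => (c : ℂ) • a k) j / 2 ^ j) ^ r
      = ENNReal.ofReal |c| ^ r * (shellSum a j / 2 ^ j) ^ r := by
    intro j
    rw [shellSum_smul, mul_div_assoc, ENNReal.mul_rpow_of_nonneg _ _ (by linarith)]
  simp only [e]
  rw [ENNReal.tsum_mul_left, ENNReal.mul_rpow_of_nonneg _ _ (by positivity), ← ENNReal.rpow_mul,
    mul_one_div_cancel (by linarith), ENNReal.rpow_one]

end Pool.Agent.H3NS
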