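import Pool.Agent.H356R3.NS.Defs

namespace Pool.Agent.H356R3.NS
end Pool.Agent.H356R3.NS
namespace Pool.Agent.H356R3.NS.H3
end Pool.Agent.H356R3.NS.H3
namespace Pool.Agent.H356R3.NS.X
end Pool.Agent.H356R3.NS.X
namespace Pool.Agent.H3NS
end Pool.Agent.H3NS
namespace H459R3.NS
end H459R3.NS

set_option autoImplicit false
set_option maxHeartbeats 4000000
set_option synthInstance.maxHeartbeats 400000

open MeasureTheory Set Filter Topology
open scoped ENNReal NNReal ContDiff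

namespace Pool.Agent.H3NS

open Pool.Agent.H356R3.NS

/-! ### Periodic functions -/

/-- `ℤ³`-periodic functions. -/
def Pe {α : Type*} (g : R3 → α) : Prop := ∀ x j, g (x + Pi.single j 1) = g x

/-! ### Smooth functions of time and space -/

/-- `F` is smooth on `T × ℝ³`. -/
def Sm (T : Set ℝ) (F : ℝ → R3 → ℝ) : Prop :=
  ContDiffOn ℝ ∞ (fun z : ℝ × R3 => F z.1 z.2) (T ×ˢ univ)

variable {T : Set ℝ} {F G : ℝ → R3 → ℝ}

lemma Sm.slice (hF : Sm T F) {t : ℝ} (ht : t ∈ T) : ContDiff ℝ ∞ (F t) := by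
  have h1 : ContDiff ℝ ∞ fun y : R3 => ((t, y) : ℝ × R3) := contDiff_const.prodMk contDiff_id
  have h2 := ContDiffOn.comp (s := univ) hF h1.contDiffOn fun y _ => ⟨ht, mem_univ _⟩
  exact contDiffOn_univ.1 h2

lemma Sm.dtw_eq (hF : Sm T F) {t : ℝ} (ht : t ∈ T) (x : R3) :
    HasDerivWithinAt (fun s => F s x)
      (fderivWithin ℝ (fun z : ℝ × R3 => F z.1 z.2) (T ×ˢ univ) (t, x) (1, 0)) T t := by
  have h1 : HasFDerivWithinAt (fun z : ℝ × R3 => F z.1 z.2)
      (fderivWithin ℝ (fun z : ℝ × R3 => F z.1 z.2) (T ×ˢ univ) (t, x)) (T ×ˢ univ) (t, x) :=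
    ((hF (t, x) ⟨ht, mem_univ _⟩).differentiableWithinAt (by simp)).hasFDerivWithinAt
  have hg : HasDerivWithinAt (fun s : ℝ => ((s, x) : ℝ × R3)) (1, 0) T t :=
    ((hasDerivAt_id' t).prodMk (hasDerivAt_const t x)).hasDerivWithinAt
  have hm : MapsTo (fun s : ℝ => ((s, x) : ℝ × R3)) T (T ×ˢ univ) := fun s hs => ⟨hs, mem_univ _⟩
  exact h1.comp_hasDerivWithinAt t hg hm

/-- the time derivative within `T` -/
lemma Sm.dtw (hT : UniqueDiffOn ℝ T) (hF : Sm T F) :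
    Sm T (fun t x => derivWithin (fun s => F s x) T t) := by
  have hS : UniqueDiffOn ℝ (T ×ˢ (univ : Set R3)) := hT.prod uniqueDiffOn_univ
  have h1 : ContDiffOn ℝ ∞ (fderivWithin ℝ (fun z : ℝ × R3 => F z.1 z.2) (T ×ˢ univ)) (T ×ˢ univ) :=
    ContDiffOn.fderivWithin hF hS (by simp)
  refine (h1.clm_apply (contDiffOn_const (c := ((1 : ℝ), (0 : R3))))).congr fun z hz => ?_
  exact (hF.dtw_eq hz.1 z.2).derivWithin (hT z.1 hz.1)

lemma Sm.mono {T' : Set ℝ} (h : T' ⊆ T) (hF : Sm T F) : Sm T' F :=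
  ContDiffOn.mono hF (prod_mono h Subset.rfl)

/-! ### Vector fields -/

/-- `V` is a vector field which is smooth on `T × ℝ³` and periodic. -/
structure SV (T : Set ℝ) (V : ℝ → R3 → R3) : Prop where
  sm : ∀ i, Sm T (fun t x => V t x i)
  per : ∀ t ∈ T, Pe (V t)

lemma SV.peri {V : ℝ → R3 → R3} (h : SV T V) {t : ℝ} (ht : t ∈ T) (i : Fin 3) :
    Pe (fun x => V t x i) := fun x j => congrFun (h.per t ht x j) i

end Pool.Agent.H3NS
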