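import Pool.Agent.H3NY.R.Basic
import Pool.Agent.H356R3.NS.Defs

namespace Pool.Agent.H356R3.NS
end Pool.Agent.H356R3.NS
namespace Pool.Agent.H356R3.NS.H3
end Pool.Agent.H356R3.NS.H3
namespace Pool.Agent.H356R3.NS.X
end Pool.Agent.H356R3.NS.X
namespace Pool.Agent.H3NS
end Pool.Agent.H3NS
namespace H459R3.NS
end H459R3.NS

set_option autoImplicit false
set_option maxHeartbeats 4000000
set_option synthInstance.maxHeartbeats 400000

open MeasureTheory Set Filter Topology
open scoped ENNReal NNReal ContDiff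

namespace Pool.Agent.H3NS

open Pool.Agent.H356R3.NS

lemma critNorm_congr {r : ℝ} {a b : K → C3} (h : ∀ k, k ≠ 0 → a k = b k) : critNorm r a = critNorm r b := by
  unfold critNorm shellSum
  congr 1
  refine tsum_congr fun j => ?_
  congr 2
  refine tsum_congr fun k => ?_
  by_cases hk : k = 0
  · subst hk
    have : ¬ ((4 : ℤ) ^ j ≤ ∑ i, (0 : K) i ^ 2 ∧ ∑ i, (0 : K) i ^ 2 < (4 : ℤ) ^ (j + 1)) := by
      intro h'
      have h1 := h'.1
      simp only [Pi.zero_apply, ne_eq, OfNat.ofNat_ne_zero, not_false_eq_true, zero_pow,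
        Finset.sum_const_zero] at h1
      have : (0 : ℤ) < 4 ^ j := by positivity
      linarith
    rw [if_neg this, if_neg this]
  · rw [h k hk]

end Pool.Agent.H3NS
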