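import Pool.Agent.H3NY.R.Wave

namespace Pool.Agent.H356R3.NS
end Pool.Agent.H356R3.NS
namespace Pool.Agent.H356R3.NS.H3
end Pool.Agent.H356R3.NS.H3
namespace Pool.Agent.H356R3.NS.X
end Pool.Agent.H356R3.NS.X
namespace Pool.Agent.H3NS
end Pool.Agent.H3NS
namespace H459R3.NS
end H459R3.NS

set_option maxHeartbeats 4000000
set_option synthInstance.maxHeartbeats 400000

open MeasureTheory Set Filter Topology
open scoped ENNReal NNReal

namespace Pool.Agent.H356R3.NS.H3

variable {q cc η : K}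

/-- the amplitude of the added wave -/
noncomputable def Cv (c : ℝ) (q cc η : K) (γ : ℂ) (lm : ℝ) : ℝ :=
  4 * (lm * ‖cK q‖) + 4 * (c * sq η * ‖γ‖ / (Real.pi * sq q * lm) * ‖cK cc‖)
    + 4 * (‖γ‖ * ‖cK cc‖)

end Pool.Agent.H356R3.NS.H3
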