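import Pool.Agent.H3NY.R.Step
import Pool.Agent.H3NY.S.Step4

namespace Pool.Agent.H356R3.NS
end Pool.Agent.H356R3.NS
namespace Pool.Agent.H356R3.NS.H3
end Pool.Agent.H356R3.NS.H3
namespace Pool.Agent.H356R3.NS.X
end Pool.Agent.H356R3.NS.X
namespace Pool.Agent.H3NS
end Pool.Agent.H3NS
namespace H459R3.NS
end H459R3.NS

set_option autoImplicit false
set_option maxHeartbeats 4000000
set_option synthInstance.maxHeartbeats 400000

open MeasureTheory Set Filter Topology
open scoped ENNReal NNReal

namespace Pool.Agent.H356R3.NS.H3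

variable {q cc η : K}

lemma Cv_pos {c : ℝ} (hc : 0 < c) (hG : Geo q cc η) (γ : ℂ) {lm : ℝ} (hlm : 0 < lm) :
    0 < Cv c q cc η γ lm := by
  have hQ := sq_pos hG.hq
  have hsη := sq_pos hG.hη
  have hpi := Real.pi_pos
  have hqn : 0 < ‖cK q‖ := by
    rw [norm_pos_iff]
    intro h0
    apply hG.hq
    funext i
    have := congrFun h0 i
    simpa [cK] using this
  unfold Cv
  positivity

end Pool.Agent.H356R3.NS.H3
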